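import Pool.Agent.W448.FF.Stmts

/-! FF-INT: integration of the double threshold property. -/

set_option autoImplicit false

namespace Pool.Agent.W352.FF

open Pool.Agent.W448.FF Finset

lemma cheb (h : ℝ) (hh : 0 < h) (Y : ℝ) (M : ℕ) :
    (∑ m ∈ range M, (2 * (m : ℝ) + 1) * (if ((m : ℝ) + 1) * h < Y then 1 else 0)) ≤ (M : ℝ) ^ 2 ∧
    (∑ m ∈ range M, (2 * (m : ℝ) + 1) * (if ((m : ℝ) + 1) * h < Y then 1 else 0)) * h ^ 2 ≤
      (max Y 0) ^ 2 := by
  induction M with
  | zero => simp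
  | succ M ih =>
    obtain ⟨h1, h2⟩ := ih
    rw [sum_range_succ]
    by_cases hY : ((M : ℝ) + 1) * h < Y
    · rw [if_pos hY]
      have h3 : (∑ m ∈ range M, (2 * (m : ℝ) + 1) * (if ((m : ℝ) + 1) * h < Y then 1 else 0)) +
          (2 * (M : ℝ) + 1) * 1 ≤ ((M + 1 : ℕ) : ℝ) ^ 2 := by
        push_cast
        nlinarith
      refine ⟨h3, ?_⟩
      have h4 := mul_le_mul_of_nonneg_right h3 (sq_nonneg h)
      refine h4.trans ?_
      rw [← mul_pow]
      push_cast
      have h5 : 0 ≤ ((M : ℝ) + 1) * h := by positivity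
      exact pow_le_pow_left₀ h5 (hY.le.trans (le_max_left _ _)) 2
    · rw [if_neg hY, mul_zero, add_zero]
      refine ⟨h1.trans ?_, h2⟩
      push_cast
      nlinarith [(Nat.cast_nonneg M : (0 : ℝ) ≤ M)]

lemma count (M : ℕ) (h x : ℝ) (hh : 0 < h) (hx : 0 ≤ x) (T : Finset ℕ) (hT : T ⊆ range M)
    (hl : ∀ l ∈ T, ((M : ℝ) - l) * h ≤ x) : (T.card : ℝ) * h ≤ x := by
  rcases T.eq_empty_or_nonempty with h0 | h0
  · rw [h0]; simpa using hx
  · set l0 := T.min' h0 with hl0
    have h1 : l0 ∈ T := T.min'_mem h0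
    have h2 : T ⊆ Finset.Ico l0 M := by
      intro l hl'
      rw [Finset.mem_Ico]
      exact ⟨T.min'_le l hl', Finset.mem_range.mp (hT hl')⟩
    have h3 := Finset.card_le_card h2
    rw [Nat.card_Ico] at h3
    have h4 : l0 < M := Finset.mem_range.mp (hT h1)
    have h5 : (T.card : ℝ) ≤ (M : ℝ) - l0 := by
      rw [← Nat.cast_sub h4.le]
      exact_mod_cast h3
    exact (mul_le_mul_of_nonneg_right h5 hh.le).trans (hl l0 h1)

lemma minsum (M : ℕ) : ∑ m ∈ range M, ∑ l ∈ range M, min (2 * (m : ℝ) + 1) (2 * (l : ℝ) + 1) =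
    M * (2 * (M : ℝ) ^ 2 + 1) / 3 := by
  have hodd : ∀ M : ℕ, ∑ m ∈ range M, (2 * (m : ℝ) + 1) = (M : ℝ) ^ 2 := by
    intro M
    induction M with
    | zero => simp
    | succ M ih => rw [sum_range_succ, ih]; push_cast; ring
  induction M with
  | zero => simp
  | succ M ih =>
    rw [sum_range_succ]
    have e1 : ∑ l ∈ range (M + 1), min (2 * (M : ℝ) + 1) (2 * (l : ℝ) + 1) =
        (M : ℝ) ^ 2 + (2 * (M : ℝ) + 1) := by
      rw [sum_range_succ, min_self, ← hodd M]
      congr 1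
      refine sum_congr rfl fun l hl => ?_
      have : (l : ℝ) ≤ M := by exact_mod_cast (Finset.mem_range.mp hl).le
      exact min_eq_right (by linarith)
    have e2 : ∑ m ∈ range M, ∑ l ∈ range (M + 1), min (2 * (m : ℝ) + 1) (2 * (l : ℝ) + 1) =
        M * (2 * (M : ℝ) ^ 2 + 1) / 3 + (M : ℝ) ^ 2 := by
      simp_rw [sum_range_succ _ M]
      rw [sum_add_distrib, ih, ← hodd M]
      congr 1
      refine sum_congr rfl fun m hm => ?_
      have : (m : ℝ) ≤ M := by exact_mod_cast (Finset.mem_range.mp hm).le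
      exact min_eq_left (by linarith)
    rw [e1, e2]
    push_cast
    ring

theorem int' : S_INT := by
  intro V w hw A B y z ρ τ hρ hτ hyp
  classical
  set L : ℝ := ∑ a ∈ A, w a * (max (τ + ρ - y a) 0) ^ 2 +
      ∑ v ∈ B, w v * (max (τ + ρ - z v) 0) ^ 2 with hL
  -- one side
  have side : ∀ (A : Finset V) (y : V → ℝ) (h : ℝ) (M : ℕ), 0 < h →
      h ^ 2 * ∑ m ∈ range M, (2 * (m : ℝ) + 1) *
        ∑ a ∈ A.filter (fun a => y a < τ + ρ - ((m : ℝ) + 1) * h), w a ≤
      ∑ a ∈ A, w a * (max (τ + ρ - y a) 0) ^ 2 := by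
    intro A y h M hh
    have e : h ^ 2 * ∑ m ∈ range M, (2 * (m : ℝ) + 1) *
        ∑ a ∈ A.filter (fun a => y a < τ + ρ - ((m : ℝ) + 1) * h), w a =
        ∑ a ∈ A, w a * ((∑ m ∈ range M, (2 * (m : ℝ) + 1) *
          (if ((m : ℝ) + 1) * h < τ + ρ - y a then 1 else 0)) * h ^ 2) := by
      simp_rw [sum_filter, mul_sum, sum_mul, mul_sum]
      rw [sum_comm]
      refine sum_congr rfl fun a _ => sum_congr rfl fun m _ => ?_
      by_cases hc : y a < τ + ρ - ((m : ℝ) + 1) * h
      · have hc' : ((m : ℝ) + 1) * h < τ + ρ - y a := by linarith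
        rw [if_pos hc, if_pos hc']; ring
      · have hc' : ¬ ((m : ℝ) + 1) * h < τ + ρ - y a := fun h' => hc (by linarith)
        rw [if_neg hc, if_neg hc']; ring
    rw [e]
    refine sum_le_sum fun a _ => mul_le_mul_of_nonneg_left (cheb h hh _ M).2 (hw a)
  -- the discrete bound
  have disc : ∀ M : ℕ, 2 / 3 * ρ ^ 3 * ((M : ℝ) / (M + 1)) ^ 3 ≤ L := by
    intro M
    set h : ℝ := ρ / (M + 1) with hh
    have hM1 : (0 : ℝ) < M + 1 := by positivity
    have hpos : 0 < h := by positivity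
    have hρh : ρ = (M + 1) * h := by rw [hh]; field_simp
    set f : ℕ → ℝ := fun m => ∑ a ∈ A.filter (fun a => y a < τ + ρ - ((m : ℝ) + 1) * h), w a with hf
    set g : ℕ → ℝ := fun m => ∑ a ∈ B.filter (fun a => z a < τ + ρ - ((m : ℝ) + 1) * h), w a with hg
    have hf0 : ∀ m, 0 ≤ f m := fun m => sum_nonneg fun a _ => hw a
    have hg0 : ∀ m, 0 ≤ g m := fun m => sum_nonneg fun a _ => hw a
    have h1 : h ^ 2 * (∑ m ∈ range M, (2 * (m : ℝ) + 1) * f m +
        ∑ l ∈ range M, (2 * (l : ℝ) + 1) * g l) ≤ L := by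
      rw [mul_add, hL]
      exact add_le_add (side A y h M hpos) (side B z h M hpos)
    let Q : ℕ → ℕ → Prop := fun m l => ((M : ℝ) - l) * h ≤ f m
    have hJ : ∀ m, (((range M).filter (fun l => Q m l)).card : ℝ) * h ≤ f m := fun m =>
      count M h (f m) hpos (hf0 m) _ (filter_subset _ _) fun l hl => (mem_filter.mp hl).2
    have hK : ∀ l, (((range M).filter (fun m => ¬ Q m l)).card : ℝ) * h ≤ g l := by
      intro l
      refine count M h (g l) hpos (hg0 l) _ (filter_subset _ _) fun m hm => ?_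
      have hQ : ¬ ((M : ℝ) - l) * h ≤ f m := (mem_filter.mp hm).2
      have h2 := hyp (τ + ρ - ((m : ℝ) + 1) * h) (τ + ρ - ((l : ℝ) + 1) * h)
        (by have : 0 ≤ ((m : ℝ) + 1) * h := by positivity
            linarith)
        (by have : 0 ≤ ((l : ℝ) + 1) * h := by positivity
            linarith)
      rcases h2 with h2 | h2
      · exfalso
        apply hQ
        refine le_trans (le_of_eq ?_) h2
        rw [hρh]; ring
      · refine le_trans (le_of_eq ?_) h2
        rw [hρh]; ring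
    have h3 : h * ∑ m ∈ range M, ∑ l ∈ range M, min (2 * (m : ℝ) + 1) (2 * (l : ℝ) + 1) ≤
        ∑ m ∈ range M, (2 * (m : ℝ) + 1) * f m + ∑ l ∈ range M, (2 * (l : ℝ) + 1) * g l := by
      have a1 : ∑ m ∈ range M, (2 * (m : ℝ) + 1) * f m ≥
          ∑ m ∈ range M, ∑ l ∈ range M, (if Q m l then (2 * (m : ℝ) + 1) * h else 0) := by
        refine sum_le_sum fun m _ => ?_
        have := mul_le_mul_of_nonneg_left (hJ m) (show (0 : ℝ) ≤ 2 * (m : ℝ) + 1 by positivity)
        refine le_trans (le_of_eq ?_) this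
        rw [← sum_filter, sum_const, nsmul_eq_mul]
        ring
      have a2 : ∑ l ∈ range M, (2 * (l : ℝ) + 1) * g l ≥
          ∑ l ∈ range M, ∑ m ∈ range M, (if ¬ Q m l then (2 * (l : ℝ) + 1) * h else 0) := by
        refine sum_le_sum fun l _ => ?_
        have := mul_le_mul_of_nonneg_left (hK l) (show (0 : ℝ) ≤ 2 * (l : ℝ) + 1 by positivity)
        refine le_trans (le_of_eq ?_) this
        rw [← sum_filter, sum_const, nsmul_eq_mul]
        ring
      rw [sum_comm] at a2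
      refine le_trans ?_ (add_le_add a1 a2)
      rw [← sum_add_distrib, mul_sum]
      refine sum_le_sum fun m _ => ?_
      rw [← sum_add_distrib, mul_sum]
      refine sum_le_sum fun l _ => ?_
      by_cases hQ : Q m l
      · rw [if_pos hQ, if_neg (not_not_intro hQ), add_zero, mul_comm]
        exact mul_le_mul_of_nonneg_right (min_le_left _ _) hpos.le
      · rw [if_neg hQ, if_pos hQ, zero_add, mul_comm]
        exact mul_le_mul_of_nonneg_right (min_le_right _ _) hpos.le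
    rw [minsum] at h3
    have h4 := mul_le_mul_of_nonneg_left h3 (sq_nonneg h)
    refine le_trans ?_ (h4.trans h1)
    have hMn : (0 : ℝ) ≤ M := Nat.cast_nonneg M
    have e : 2 / 3 * ρ ^ 3 * ((M : ℝ) / (M + 1)) ^ 3 = 2 / 3 * h ^ 3 * (M : ℝ) ^ 3 := by
      rw [hh]
      field_simp
    rw [e]
    have h5 : 0 ≤ h ^ 3 * (M : ℝ) := by positivity
    nlinarith
  have hlim : Filter.Tendsto (fun M : ℕ => 2 / 3 * ρ ^ 3 * ((M : ℝ) / (M + 1)) ^ 3) Filter.atTop
      (nhds (2 / 3 * ρ ^ 3 * 1 ^ 3)) :=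
    ((tendsto_natCast_div_add_atTop (1 : ℝ)).pow 3).const_mul _
  have := le_of_tendsto' hlim disc
  simpa using this

end Pool.Agent.W352.FF
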